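import Pool.Agent.H68.GHK.Defs

/-!
# Derivatives along lines (MP_52e316_nt, board ghk, tools for JKF)
-/

set_option autoImplicit false

namespace Pool.Agent.H95.GHK

section lines

variable {E F : Type*} [NormedAddCommGroup E] [NormedSpace ℝ E] [NormedAddCommGroup F]
  [NormedSpace ℝ F]

/-- the derivatives of `s ↦ f (z + s X)` -/
theorem iteratedDeriv_line {U : Set E} (hU : IsOpen U) {f : E → F}
    (hf : ContDiffOn ℝ ((⊤ : ℕ∞) : WithTop ℕ∞) f U) (z X : E) (k : ℕ) :
    ∀ s : ℝ, z + s • X ∈ U →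
      iteratedDeriv k (fun t : ℝ => f (z + t • X)) s =
        iteratedFDeriv ℝ k f (z + s • X) (fun _ => X) := by
  induction k with
  | zero =>
    intro s _
    rw [iteratedDeriv_zero, iteratedFDeriv_zero_apply]
  | succ k ih =>
    intro s hs
    rw [iteratedDeriv_succ]
    have hc : Continuous fun t : ℝ => z + t • X := by fun_prop
    have hev : (fun t : ℝ => iteratedDeriv k (fun t : ℝ => f (z + t • X)) t) =ᶠ[nhds s]
        fun t : ℝ => iteratedFDeriv ℝ k f (z + t • X) (fun _ => X) := by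
      filter_upwards [(hU.preimage hc).mem_nhds hs] with t ht
      exact ih t ht
    rw [Filter.EventuallyEq.deriv_eq hev]
    have hfa : ContDiffAt ℝ ((⊤ : ℕ∞) : WithTop ℕ∞) f (z + s • X) :=
      hf.contDiffAt (hU.mem_nhds hs)
    have hd : DifferentiableAt ℝ (iteratedFDeriv ℝ k f) (z + s • X) := by
      have h1 : ContDiffAt ℝ 1 (iteratedFDeriv ℝ k f) (z + s • X) :=
        hfa.iteratedFDeriv_right (m := 1) (i := k) (by exact_mod_cast le_top)
      exact h1.differentiableAt (by norm_num)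
    have hl : HasDerivAt (fun t : ℝ => z + t • X) X s := by
      have h1 : HasDerivAt (fun t : ℝ => t • X) ((1 : ℝ) • X) s :=
        (hasDerivAt_id s).smul_const X
      rw [one_smul] at h1
      exact h1.const_add z
    have h2 : HasDerivAt (fun t : ℝ => iteratedFDeriv ℝ k f (z + t • X))
        (fderiv ℝ (iteratedFDeriv ℝ k f) (z + s • X) X) s :=
      hd.hasFDerivAt.comp_hasDerivAt s hl
    have h3 : HasDerivAt (fun t : ℝ => iteratedFDeriv ℝ k f (z + t • X) (fun _ => X))
        ((fderiv ℝ (iteratedFDeriv ℝ k f) (z + s • X) X) (fun _ => X)) s := by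
      have h4 := ((ContinuousMultilinearMap.apply ℝ (fun _ : Fin k => E) F
        (fun _ => X)).hasFDerivAt (x := iteratedFDeriv ℝ k f (z + s • X))).comp_hasDerivAt s h2
      exact h4
    rw [h3.deriv, iteratedFDeriv_succ_apply_left]
    rfl

/-- the size of the derivatives of `s ↦ f (z + s X)` -/
theorem norm_iteratedDeriv_line {U : Set E} (hU : IsOpen U) {f : E → F}
    (hf : ContDiffOn ℝ ((⊤ : ℕ∞) : WithTop ℕ∞) f U) (z X : E) (k : ℕ) (B : ℝ) (s : ℝ)
    (hs : z + s • X ∈ U) (hB : ‖iteratedFDeriv ℝ k f (z + s • X)‖ ≤ B) :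
    ‖iteratedDeriv k (fun t : ℝ => f (z + t • X)) s‖ ≤ B * ‖X‖ ^ k := by
  rw [iteratedDeriv_line hU hf z X k s hs]
  refine (ContinuousMultilinearMap.le_opNorm _ _).trans ?_
  rw [Finset.prod_const, Finset.card_univ, Fintype.card_fin]
  exact mul_le_mul_of_nonneg_right hB (pow_nonneg (norm_nonneg _) _)

end lines

end Pool.Agent.H95.GHK
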